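import Pool.Agent.H.MP_32357e_an.A
import Pool.Agent.H.MP_5011cf_an.A

set_option autoImplicit false
open Filter Topology Metric Set Complex Pool.Agent.H.MP_32357e_an

namespace Pool.Agent.H.MP_f04b5a_an

def SS (f : ℂ → ℂ) : Prop :=
  DifferentiableOn ℂ f (ball 0 1) ∧ InjOn f (ball 0 1) ∧ f 0 = 0 ∧ deriv f 0 = 1

theorem ex3 {s : ℂ} (hs : s ∈ St) : ‖exp (I / 2 * s)‖ ≤ 3 := by
  rw [norm_exp]
  refine (Real.exp_le_exp.mpr ?_).trans (Real.exp_one_lt_d9.le.trans (by norm_num))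
  have := (abs_lt.mp (show |s.im| < _ from hs)).1
  simp
  linarith [Real.pi_lt_four]

theorem zeros {E : ℂ → ℂ} {W : ℂ} (hW : ‖W‖ = 1) {τ : ℝ} (t0 : 0 < τ) (t1 : τ ≤ 1)
    (h1 : ∀ s ∈ St, ‖exp s‖ < τ → DifferentiableAt ℂ E s ∧ ‖E s - (exp (I / 2 * s) - W)‖ ≤ 1 / 20) :
    {z : ℂ | z ∈ ball (0 : ℂ) 1 ∧ ‖1 - z‖ < τ ∧ E (log (1 - z)) = 0}.Infinite := by
  refine Infinite.of_image (fun z => Real.log ‖1 - z‖) (infinite_of_forall_exists_lt fun B => ?_)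
  obtain ⟨n, hn⟩ := exists_nat_gt (2 * W.arg + 1 - min B (Real.log τ))
  obtain ⟨c, hc⟩ : ∃ c : ℝ, c = 2 * W.arg - n * (4 * Real.pi) := ⟨_, rfl⟩
  have c1 : c + 1 < min B (Real.log τ) := by nlinarith [Real.pi_gt_three, n.cast_nonneg (α := ℝ)]
  have c2 : exp (I / 2 * c) = W := by
    rw [← one_mul (exp _), ← exp_nat_mul_two_pi_mul_I n, ← exp_add]
    refine Eq.trans (congrArg exp ?_) (by simpa [hW] using norm_mul_exp_arg_mul_I W)
    rw [hc]
    push_cast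
    ring
  have e1 : ∀ u ∈ ball (0 : ℂ) 1, |(c + u).im| < 1 ∧ (c + u).re < min B (Real.log τ) := fun u hu => by
    have := mem_ball_zero_iff.mp hu
    simp only [add_im, ofReal_im, zero_add, add_re, ofReal_re]
    exact ⟨(abs_im_le_norm u).trans_lt this, by linarith [re_le_norm u]⟩
  have e2 : ∀ u ∈ ball (0 : ℂ) 1, c + u ∈ St ∧ ‖exp (c + u)‖ < τ := fun u hu =>
    ⟨(e1 u hu).1.trans (by linarith [Real.pi_gt_three]), by
      rw [norm_exp, ← Real.lt_log_iff_exp_lt t0]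
      exact (e1 u hu).2.trans_le (min_le_right _ _)⟩
  have e3 : closedBall (0 : ℂ) (1 / 2) ⊆ ball 0 1 := closedBall_subset_ball (by norm_num)
  obtain ⟨u, hu, e4⟩ := Pool.Agent.H.MP_10e324_an.minmod (g := fun u => E (c + u)) (w := 0)
    (m := 1 / 10) (by norm_num) e3 (fun u hu => ((h1 _ (e2 u hu).1 (e2 u hu).2).1.comp u
      (by fun_prop)).differentiableWithinAt) (fun u hu => by
      have b0 := e2 u (e3 (sphere_subset_closedBall hu))
      have b1 := (h1 _ b0.1 b0.2).2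
      have b2 : ‖I / 2 * u‖ = 1 / 4 := by
        rw [norm_mul, mem_sphere_zero_iff_norm.mp hu]
        norm_num
      have b3 := norm_exp_sub_one_sub_id_le (x := I / 2 * u) (by linarith)
      have b4 := norm_sub_norm_le (I / 2 * u) (exp (I / 2 * u) - 1)
      rw [norm_sub_rev (I / 2 * u)] at b4
      rw [mul_add, exp_add, c2, ← mul_sub_one] at b1
      have b5 := norm_sub_norm_le (W * (exp (I / 2 * u) - 1)) (E (c + u))
      rw [norm_sub_rev, norm_mul, hW] at b5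
      rw [b2] at b3 b4
      rw [sub_zero]
      linarith) (by
      have b0 := e2 0 (mem_ball_self one_pos)
      have b1 := (h1 _ b0.1 b0.2).2
      rw [add_zero, c2, sub_self] at b1
      rw [add_zero]
      linarith)
  obtain ⟨b1, b2⟩ := e1 u hu
  have b3 := (e2 u hu).2
  simp only at e4
  generalize c + u = s at b1 b2 b3 e4
  have b4 := abs_lt.mp b1
  refine ⟨_, ⟨1 - exp s, ⟨mem_ball_zero_iff.mpr ?_, by rwa [sub_sub_cancel], ?_⟩, rfl⟩, ?_⟩
  · refine abs_lt_of_sq_lt_sq' ?_ zero_le_one |>.2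
    have b5 := Complex.sq_norm (exp s)
    have b6 := Real.one_sub_sq_div_two_le_cos (x := s.im)
    have b7 := Real.exp_pos s.re
    rw [norm_exp] at b3 b5
    rw [Complex.sq_norm, normSq_sub, ← b5]
    simp only [map_one, one_mul, conj_re, exp_re]
    nlinarith [mul_le_mul_of_nonneg_left (show 1 / 2 ≤ Real.cos s.im by nlinarith) b7.le]
  · rwa [sub_sub_cancel, log_exp (by linarith [Real.pi_gt_three]) (by linarith [Real.pi_gt_three])]
  · simp only [sub_sub_cancel, norm_exp, Real.log_exp]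
    exact b2.trans_le (min_le_left _ _)

noncomputable def gm : ℂ := 1 + I / 2

theorem gm0 : gm ≠ 0 := fun e => by simpa [gm] using congrArg re e

noncomputable def gg (z : ℂ) : ℂ := (1 - exp (gm * log (1 - z))) / gm

noncomputable def mb (q : ℝ) (z : ℂ) : ℂ := z / (1 - (1 - q) * z)

theorem gg_S : SS gg := by
  have h : ∀ z ∈ ball (0 : ℂ) 1, HasDerivAt gg _ z := fun z hz =>
    (((log_der hz).const_mul gm).cexp.const_sub 1).div_const gm
  refine ⟨fun z hz => (h z hz).differentiableAt.differentiableWithinAt, fun a ha b hb e => ?_,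
    by simp [gg], by simpa [gm0] using (h 0 (mem_ball_self one_pos)).deriv⟩
  exact log_inj ha hb (inj (κ := 1 / 2) (by norm_num) (fun s _ => (hasDerivAt_id s).const_mul gm)
    (fun s _ => by simp [gm]) (log_mem ha) (log_mem hb)
    (sub_right_injective ((div_left_inj' gm0).mp e)))

theorem mb0 {q : ℝ} (q0 : 0 < q) (q1 : q ≤ 1) {z : ℂ} (hz : z ∈ ball (0 : ℂ) 1) :
    1 - (1 - q) * z ≠ 0 := ne0 (by
  rw [mem_ball_zero_iff, norm_mul, ← ofReal_one, ← ofReal_sub, norm_real,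
    Real.norm_of_nonneg (by linarith)]
  nlinarith [mem_ball_zero_iff.mp hz, norm_nonneg z])

theorem mb_S {q : ℝ} (q0 : 0 < q) (q1 : q ≤ 1) : SS (mb q) := by
  have h : ∀ z ∈ ball (0 : ℂ) 1, HasDerivAt (mb q) _ z := fun z hz =>
    (hasDerivAt_id z).div (((hasDerivAt_id z).const_mul (1 - q : ℂ)).const_sub 1) (mb0 q0 q1 hz)
  refine ⟨fun z hz => (h z hz).differentiableAt.differentiableWithinAt, fun a ha b hb e => ?_,
    by simp [mb], by simpa using (h 0 (mem_ball_self one_pos)).deriv⟩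
  rw [mb, mb, div_eq_div_iff (mb0 q0 q1 ha) (mb0 q0 q1 hb)] at e
  linear_combination e

theorem gg_eq {z : ℂ} (hz : z ∈ ball (0 : ℂ) 1) :
    gg z = (1 - (1 - z) * exp (I / 2 * log (1 - z))) / gm := by
  rw [gg, gm, add_mul, one_mul, exp_add, exp_log (ne0 hz)]

theorem pq {q : ℝ} (q0 : 0 < q) (q1 : q ≤ 1) : ‖(1 - q : ℂ)‖ ≤ 1 := by
  rw [← ofReal_one, ← ofReal_sub, norm_real, Real.norm_of_nonneg (by linarith)]
  linarith

theorem arith {α : ℝ} (h0 : 0 < α) (h1 : α ≤ 1 / 3) : ∃ f g, SS f ∧ SS g ∧ ∃ w : ℂ,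
    {z : ℂ | z ∈ ball (0 : ℂ) 1 ∧ (α : ℂ) * f z + (1 - (α : ℂ)) * g z = w}.Infinite := by
  have g0 := norm_pos_iff.mpr gm0
  have g1 : ‖gm‖ ≤ 3 / 2 := (norm_add_le _ _).trans (by norm_num)
  obtain ⟨q, q0, q1, q2⟩ : ∃ q : ℝ, 0 < q ∧ q ≤ 1 ∧ q ^ 2 * (1 - α) = α * ‖gm‖ :=
    ⟨√(α * ‖gm‖ / (1 - α)), Real.sqrt_pos.mpr (div_pos (by positivity) (by linarith)),
      Real.sqrt_le_one.mpr ((div_le_one (by linarith)).mpr (by nlinarith)), by
        rw [Real.sq_sqrt (div_nonneg (by positivity) (by linarith)),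
          div_mul_cancel₀ _ (by linarith)]⟩
  have q3 : (q : ℂ) ≠ 0 := ofReal_ne_zero.mpr q0.ne'
  refine ⟨mb q, gg, mb_S q0 q1, gg_S, α / q + (1 - α) / gm, Infinite.mono ?_ (zeros (W := -gm / ‖gm‖)
    (E := fun s => (1 + (1 - q) / q * exp s) * exp (I / 2 * s) - -gm / ‖gm‖) (τ := q / 60)
    (by simp [gm0]) (by positivity) (by linarith) fun s hs h => ⟨by fun_prop, ?_⟩)⟩
  swap
  · rw [sub_sub_sub_cancel_right, ← sub_one_mul, add_sub_cancel_left, norm_mul, norm_mul, norm_div,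
      norm_real, Real.norm_of_nonneg q0.le]
    calc _ ≤ 1 / q * (q / 60) * 3 := by gcongr; exacts [pq q0 q1, ex3 hs]
      _ = _ := by field_simp; norm_num
  rintro z ⟨z1, -, z2⟩
  refine ⟨z1, ?_⟩
  have b1 := mb0 q0 q1 z1
  have b2 := gm0
  have b3 : (‖gm‖ : ℂ) ≠ 0 := ofReal_ne_zero.mpr g0.ne'
  have b4 : (q : ℂ) ^ 2 * (1 - α) = α * ‖gm‖ := by exact_mod_cast q2
  simp only [exp_log (ne0 z1)] at z2
  rw [gg_eq z1, mb]
  generalize exp (I / 2 * log (1 - z)) = y at z2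
  field_simp at z2 ⊢
  refine mul_left_cancel₀ b3 ?_
  linear_combination -q * (1 - α) * (1 - z) * z2 + gm * (1 - z) * b4

theorem exL {f : ℂ → ℂ} (h : SS f) : ∃ L : ℂ → ℂ, DifferentiableOn ℂ L (ball 0 1) ∧ L 0 = 0 ∧
    ∀ z ∈ ball (0 : ℂ) 1, f z = z * exp (L z) := by
  have m0 : (0 : ℂ) ∈ ball (0 : ℂ) 1 := mem_ball_self one_pos
  have e : ∀ z, f z = z * dslope f 0 z := fun z => by
    simpa [h.2.2.1] using (sub_smul_dslope f 0 z).symm
  obtain ⟨L, hL⟩ := Pool.Agent.H.MP_5011cf_an.logf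
    ((differentiableOn_dslope (isOpen_ball.mem_nhds m0)).mpr h.1) fun z hz e1 => by
      have := h.2.1 hz m0 (by rw [e z, e1, mul_zero, h.2.2.1])
      rw [this, dslope_same, h.2.2.2] at e1
      exact one_ne_zero e1
  refine ⟨fun z => L z - L 0, fun z hz =>
    ((hL z hz).1.differentiableAt.sub_const _).differentiableWithinAt, sub_self _, fun z hz => ?_⟩
  rw [exp_sub, (hL z hz).2, (hL 0 m0).2, dslope_same, h.2.2.2, div_one, e]

theorem cst {H : ℂ → ℂ} {U : Set ℂ} (h1 : IsOpen U) (h2 : IsPreconnected U)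
    (h3 : DifferentiableOn ℂ H U) {c : ℂ} (h4 : ∀ z ∈ U, exp (H z) = c) :
    ∃ k, ∀ z ∈ U, H z = k := by
  refine h1.exists_is_const_of_deriv_eq_zero h2 h3 fun z hz => ?_
  exact (mul_eq_zero.mp ((h3.differentiableAt (h1.mem_nhds hz)).hasDerivAt.cexp.unique
    ((hasDerivAt_const z c).congr_of_eventuallyEq (eventually_of_mem (h1.mem_nhds hz) h4)))).resolve_left
    (exp_ne_zero _)

theorem lg {x : ℂ} (h : ‖x‖ ≤ 1 / 2) : 0 < (1 - x).re ∧ ‖log (1 - x) + x‖ ≤ ‖x‖ ^ 2 := by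
  refine ⟨re_pos (mem_ball_zero_iff.mpr (by linarith)), ?_⟩
  have := norm_log_one_add_sub_self_le (z := -x) (by rw [norm_neg]; linarith)
  rw [norm_neg, sub_neg_eq_add, ← sub_eq_add_neg] at this
  have b : (1 - ‖x‖)⁻¹ ≤ 2 := by rw [inv_le_comm₀ (by linarith) two_pos]; linarith
  nlinarith [sq_nonneg ‖x‖]

theorem sm {q : ℝ} (q0 : 0 < q) (q1 : q ≤ 1) {x y : ℂ} (h : ‖x‖ < q / 300) (hy : ‖y‖ ≤ 3) :
    q / 2 ≤ ‖q + (1 - q) * x‖ ∧ ‖x / (q + (1 - q) * x)‖ ≤ 2 / q * ‖x‖ ∧ 2 / q * ‖x‖ ≤ 1 / 150 ∧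
      ‖x * y‖ ≤ 3 * ‖x‖ := by
  have b1 : q / 2 ≤ ‖q + (1 - q) * x‖ := by
    have := norm_sub_le (q + (1 - q) * x) ((1 - q) * x)
    rw [add_sub_cancel_right, norm_real, Real.norm_of_nonneg q0.le, norm_mul] at this
    nlinarith [pq q0 q1, norm_nonneg x]
  refine ⟨b1, ?_, ?_, ?_⟩
  · rw [norm_div]
    exact (div_le_div_of_nonneg_left (norm_nonneg _) (by positivity) b1).trans
      (le_of_eq (by field_simp))
  · rw [div_mul_eq_mul_div, div_le_iff₀ q0]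
    linarith
  · rw [norm_mul]
    nlinarith [norm_nonneg x]

noncomputable def EE (q : ℝ) (s : ℂ) : ℂ :=
  -(q * log (1 - exp s / (q + (1 - q) * exp s)) + log (1 - exp s * exp (I / 2 * s))) / exp s

theorem EE_est {q : ℝ} (q0 : 0 < q) (q1 : q ≤ 1) (s : ℂ) (hs : s ∈ St) (h : ‖exp s‖ < q / 300) :
    DifferentiableAt ℂ (EE q) s ∧ ‖EE q s - (exp (I / 2 * s) - -1)‖ ≤ 1 / 20 := by
  obtain ⟨b2, b3, b4, b5⟩ := sm q0 q1 h (ex3 hs)
  have b6 := lg (x := exp s / (q + (1 - q) * exp s)) (by linarith)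
  have b7 := lg (x := exp s * exp (I / 2 * s)) (by linarith)
  have b8 : q + (1 - q) * exp s ≠ 0 := norm_pos_iff.mp (by linarith)
  have b9 := exp_ne_zero s
  have n0 := norm_pos_iff.mpr b9
  constructor
  · have d1 : DifferentiableAt ℂ (fun s => log (1 - exp s / (q + (1 - q) * exp s))) s :=
      DifferentiableAt.clog (by fun_prop (disch := assumption)) (Or.inl b6.1)
    have d2 : DifferentiableAt ℂ (fun s => log (1 - exp s * exp (I / 2 * s))) s :=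
      DifferentiableAt.clog (by fun_prop) (Or.inl b7.1)
    exact ((d1.const_mul _).add d2).neg.div differentiableAt_exp b9
  have d1 := b6.2.trans (pow_le_pow_left₀ (norm_nonneg _) b3 2)
  have d2 := b7.2.trans (pow_le_pow_left₀ (norm_nonneg _) b5 2)
  rw [EE]
  generalize log (1 - exp s / (q + (1 - q) * exp s)) = A at d1 ⊢
  generalize log (1 - exp s * exp (I / 2 * s)) = B at d2 ⊢
  rw [show -(q * A + B) / exp s - (exp (I / 2 * s) - -1) = -((q * (A + exp s / (q + (1 - q) *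
    exp s)) + (B + exp s * exp (I / 2 * s))) / exp s + (1 - q) * (exp s / (q + (1 - q) * exp s))) by
      linear_combination (mul_inv_cancel₀ b8) + (exp (I / 2 * s) + q * (q + (1 - q) * exp s)⁻¹) *
        mul_inv_cancel₀ b9, norm_neg]
  refine (norm_add_le _ _).trans ?_
  have d3 : ‖(q * (A + exp s / (q + (1 - q) * exp s)) + (B + exp s * exp (I / 2 * s))) / exp s‖ ≤
      2 / 150 + 9 / 300 := by
    rw [norm_div, div_le_iff₀ n0]
    refine (norm_add_le _ _).trans ?_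
    rw [norm_mul, norm_real, Real.norm_of_nonneg q0.le]
    have d4 : q * (2 / q * ‖exp s‖) ^ 2 = 2 * ‖exp s‖ * (2 / q * ‖exp s‖) := by field_simp
    nlinarith [mul_le_mul_of_nonneg_left d1 q0.le]
  rw [norm_mul]
  nlinarith [pq q0 q1, norm_nonneg (exp s / (q + (1 - q) * exp s))]

theorem slit {q : ℝ} (q0 : 0 < q) (q1 : q ≤ 1) {z : ℂ} (hz : z ∈ ball (0 : ℂ) 1 ∩ ball 1 (q / 300)) :
    z ∈ slitPlane ∧ q + (1 - q) * (1 - z) ≠ 0 ∧
      1 - (1 - z) / (q + (1 - q) * (1 - z)) ∈ slitPlane ∧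
      1 - (1 - z) * exp (I / 2 * log (1 - z)) ∈ slitPlane := by
  have b1 := mem_ball_iff_norm'.mp hz.2
  obtain ⟨b2, b3, b4, b5⟩ := sm q0 q1 b1 (ex3 (log_mem hz.1))
  exact ⟨Or.inl (by simpa using (lg (x := 1 - z) (by linarith)).1),
    norm_pos_iff.mp (by linarith), Or.inl (lg (by linarith)).1, Or.inl (lg (by linarith)).1⟩

theorem cst1 {q : ℝ} (q0 : 0 < q) (q1 : q ≤ 1) {L : ℂ → ℂ} (f1 : DifferentiableOn ℂ L (ball 0 1))
    (f2 : ∀ z ∈ ball (0 : ℂ) 1, mb q z = z * exp (L z)) :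
    ∃ k, ∀ z ∈ ball (0 : ℂ) 1 ∩ ball 1 (q / 300),
      L z + log z - log (1 - (1 - z) / (q + (1 - q) * (1 - z))) = k := by
  have q3 : (q : ℂ) ≠ 0 := ofReal_ne_zero.mpr q0.ne'
  refine cst (isOpen_ball.inter isOpen_ball)
    ((convex_ball (0 : ℂ) 1).inter (convex_ball 1 (q / 300))).isPreconnected (c := 1 / q)
    (fun z hz => ?_) fun z hz => ?_
  · obtain ⟨b1, b2, b3, -⟩ := slit q0 q1 hz
    have d1 : DifferentiableAt ℂ (fun z => log (1 - (1 - z) / (q + (1 - q) * (1 - z)))) z :=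
      DifferentiableAt.clog (by fun_prop (disch := assumption)) b3
    exact (((f1.differentiableAt (isOpen_ball.mem_nhds hz.1)).add
      (differentiableAt_log b1)).sub d1).differentiableWithinAt
  obtain ⟨b1, b2, b3, -⟩ := slit q0 q1 hz
  have b4 := mb0 q0 q1 hz.1
  rw [exp_sub, exp_add, exp_log (slitPlane_ne_zero b1), exp_log (slitPlane_ne_zero b3),
    mul_comm, ← f2 z hz.1, mb, div_eq_iff (slitPlane_ne_zero b3),
    show q + (1 - q) * (1 - z) = 1 - (1 - q) * z by ring, one_div, eq_inv_mul_iff_mul_eq₀ q3]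
  linear_combination mul_inv_cancel₀ b4

theorem cst2 {q : ℝ} (q0 : 0 < q) (q1 : q ≤ 1) {L : ℂ → ℂ} (f1 : DifferentiableOn ℂ L (ball 0 1))
    (f2 : ∀ z ∈ ball (0 : ℂ) 1, gg z = z * exp (L z)) :
    ∃ k, ∀ z ∈ ball (0 : ℂ) 1 ∩ ball 1 (q / 300),
      L z + log z - log (1 - (1 - z) * exp (I / 2 * log (1 - z))) = k := by
  refine cst (isOpen_ball.inter isOpen_ball)
    ((convex_ball (0 : ℂ) 1).inter (convex_ball 1 (q / 300))).isPreconnected (c := 1 / gm)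
    (fun z hz => ?_) fun z hz => ?_
  · obtain ⟨b1, -, -, b3⟩ := slit q0 q1 hz
    have d0 := (log_der hz.1).differentiableAt
    have d1 : DifferentiableAt ℂ (fun z => log (1 - (1 - z) * exp (I / 2 * log (1 - z)))) z :=
      DifferentiableAt.clog ((((differentiableAt_id.const_sub 1).mul
        (d0.const_mul _).cexp)).const_sub 1) b3
    exact (((f1.differentiableAt (isOpen_ball.mem_nhds hz.1)).add
      (differentiableAt_log b1)).sub d1).differentiableWithinAt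
  obtain ⟨b1, -, -, b3⟩ := slit q0 q1 hz
  rw [exp_sub, exp_add, exp_log (slitPlane_ne_zero b1), exp_log (slitPlane_ne_zero b3),
    mul_comm, ← f2 z hz.1, gg_eq hz.1, div_right_comm, div_self (slitPlane_ne_zero b3)]

theorem geom {α : ℝ} (h0 : 0 < α) (h1 : α ≤ 1 / 2) : ∃ f g Lf Lg : ℂ → ℂ, SS f ∧ SS g ∧
    (DifferentiableOn ℂ Lf (ball 0 1) ∧ Lf 0 = 0 ∧ ∀ z ∈ ball (0 : ℂ) 1, f z = z * exp (Lf z)) ∧
    (DifferentiableOn ℂ Lg (ball 0 1) ∧ Lg 0 = 0 ∧ ∀ z ∈ ball (0 : ℂ) 1, g z = z * exp (Lg z)) ∧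
    ∃ w : ℂ, {z : ℂ | z ∈ ball (0 : ℂ) 1 ∧ z * exp (α * Lf z + (1 - α) * Lg z) = w}.Infinite := by
  obtain ⟨q, q0, q1, q2⟩ : ∃ q : ℝ, 0 < q ∧ q ≤ 1 ∧ q * (1 - α) = α :=
    ⟨α / (1 - α), div_pos h0 (by linarith), (div_le_one (by linarith)).mpr (by linarith),
      div_mul_cancel₀ _ (by linarith)⟩
  obtain ⟨Lf, f1⟩ := exL (mb_S q0 q1)
  obtain ⟨Lg, g1⟩ := exL gg_S
  obtain ⟨k1, hk1⟩ := cst1 q0 q1 f1.1 f1.2.2
  obtain ⟨k2, hk2⟩ := cst2 q0 q1 g1.1 g1.2.2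
  refine ⟨_, _, Lf, Lg, mb_S q0 q1, gg_S, f1, g1, exp (α * k1 + (1 - α) * k2), Infinite.mono ?_
    (zeros (by simp) (by positivity) (by linarith) (EE_est q0 q1))⟩
  rintro z ⟨z1, z3, z2⟩
  refine ⟨z1, ?_⟩
  have hz : z ∈ ball (0 : ℂ) 1 ∩ ball 1 (q / 300) := ⟨z1, mem_ball_iff_norm'.mpr z3⟩
  have b4 : (q : ℂ) * (1 - α) = α := by exact_mod_cast q2
  simp only [EE, exp_log (ne0 z1), div_eq_zero_iff, ne0 z1, or_false, neg_eq_zero] at z2
  rw [← hk1 z hz, ← hk2 z hz]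
  nth_rw 1 [← exp_log (slitPlane_ne_zero (slit q0 q1 hz).1)]
  rw [← exp_add]
  refine congrArg exp ?_
  linear_combination (1 - α) * z2 - log (1 - (1 - z) / (q + (1 - q) * (1 - z))) * b4

end Pool.Agent.H.MP_f04b5a_an
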